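import Pool.Agent.Helper59.Dub.Defs

/-!
# Algebra of the cohomology ring
-/

set_option autoImplicit false

namespace Pool.Agent.Helper59.Dub

open Filter Topology Complex

universe u v

namespace CohRing

variable {H : Type u} [CommRing H] [Algebra ℂ H] {D : ℕ} (X : CohRing H D)

theorem proj_same {k : ℕ} {a : H} (ha : a ∈ X.part k) : GradedAlgebra.proj X.part k a = a := by
  rw [GradedAlgebra.proj_apply, DirectSum.decompose_of_mem_same _ ha]

theorem proj_ne {k l : ℕ} {a : H} (ha : a ∈ X.part k) (h : k ≠ l) :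
    GradedAlgebra.proj X.part l a = 0 := by
  rw [GradedAlgebra.proj_apply, DirectSum.decompose_of_mem_ne _ ha h]

theorem ind {p : H → Prop} (h : ∀ k, ∀ a ∈ X.part k, p a) (h0 : ∀ a b, p a → p b → p (a + b))
    (a : H) : p a := by
  refine DirectSum.Decomposition.inductionOn X.part ?_ (fun m => h _ _ m.2) h0 a
  exact h 0 0 (Submodule.zero_mem _)

theorem le_of_ne_zero {k : ℕ} {a : H} (ha : a ∈ X.part k) (h : a ≠ 0) : k ≤ D := by
  by_contra hk
  push Not at hk
  rw [X.part_eq_bot k hk] at ha
  exact h ((Submodule.mem_bot ℂ).1 ha)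

theorem sum_proj_of_mem {k : ℕ} {a : H} (ha : a ∈ X.part k) (f : ℕ → ℂ) :
    (∑ i ∈ Finset.range (D + 1), f i • GradedAlgebra.proj X.part i a) = f k • a := by
  by_cases h : a = 0
  · subst h; simp
  have hk := X.le_of_ne_zero ha h
  rw [Finset.sum_eq_single k]
  · rw [X.proj_same ha]
  · intro i _ hi
    rw [X.proj_ne ha hi.symm, smul_zero]
  · intro h'
    exact absurd (Finset.mem_range.2 (Nat.lt_succ_of_le hk)) h'

theorem scale_of_mem {k : ℕ} {a : H} (ha : a ∈ X.part k) (m : ℂ) : X.scale m a = m ^ k • a := by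
  have := X.sum_proj_of_mem ha fun i => m ^ i
  simpa [scale, LinearMap.sum_apply, LinearMap.smul_apply] using this

theorem degree_of_mem {k : ℕ} {a : H} (ha : a ∈ X.part k) : X.degree a = (k : ℂ) • a := by
  have := X.sum_proj_of_mem ha fun i => (i : ℂ)
  simpa [degree, LinearMap.sum_apply, LinearMap.smul_apply] using this

theorem powTheta_of_mem {k : ℕ} {a : H} (ha : a ∈ X.part k) (w : ℂ) :
    X.powTheta w a = exp (w * ((D : ℂ) / 2 - k)) • a := by
  have := X.sum_proj_of_mem ha fun i => exp (w * ((D : ℂ) / 2 - i))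
  simpa [powTheta, LinearMap.sum_apply, LinearMap.smul_apply] using this

theorem scale_mul (m : ℂ) (a b : H) : X.scale m (a * b) = X.scale m a * X.scale m b := by
  refine X.ind (p := fun a => X.scale m (a * b) = X.scale m a * X.scale m b) ?_ ?_ a
  · intro k a ha
    refine X.ind (p := fun b => X.scale m (a * b) = X.scale m a * X.scale m b) ?_ ?_ b
    · intro l b hb
      rw [X.scale_of_mem ha, X.scale_of_mem hb, X.scale_of_mem (SetLike.mul_mem_graded ha hb),
        pow_add, smul_mul_smul_comm]
    · intro b b' h h'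
      simp only [mul_add, map_add, h, h']
  · intro a a' h h'
    simp only [add_mul, map_add, h, h']

theorem scale_one_apply (a : H) : X.scale 1 a = a := by
  refine X.ind (p := fun a => X.scale 1 a = a) ?_ ?_ a
  · intro k a ha
    rw [X.scale_of_mem ha, one_pow, one_smul]
  · intro a a' h h'
    simp only [map_add, h, h']

theorem scale_scale (m n : ℂ) (a : H) : X.scale m (X.scale n a) = X.scale (m * n) a := by
  refine X.ind (p := fun a => X.scale m (X.scale n a) = X.scale (m * n) a) ?_ ?_ a
  · intro k a ha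
    rw [X.scale_of_mem ha, X.scale_of_mem ha, map_smul, X.scale_of_mem ha, smul_smul, mul_pow,
      mul_comm]
  · intro a a' h h'
    simp only [map_add, h, h']

theorem scale_unit (m : ℂ) : X.scale m 1 = 1 := by
  rw [X.scale_of_mem (k := 0) SetLike.GradedOne.one_mem, pow_zero, one_smul]

theorem scale_pow (m : ℂ) (a : H) (n : ℕ) : X.scale m (a ^ n) = X.scale m a ^ n := by
  induction n with
  | zero => simp [X.scale_unit]
  | succ n ih => rw [pow_succ, pow_succ, X.scale_mul, ih]

theorem integral_scale (m : ℂ) (a : H) : X.integral (X.scale m a) = m ^ D * X.integral a := by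
  refine X.ind (p := fun a => X.integral (X.scale m a) = m ^ D * X.integral a) ?_ ?_ a
  · intro k a ha
    rw [X.scale_of_mem ha, map_smul, smul_eq_mul]
    by_cases h : k = D
    · rw [h]
    · rw [X.integral_part k h a ha, mul_zero, mul_zero]
  · intro a a' h h'
    simp only [map_add, h, h', mul_add]

theorem integral_degree (a b : H) :
    X.integral (X.degree a * b) + X.integral (a * X.degree b) = D * X.integral (a * b) := by
  refine X.ind (p := fun a => X.integral (X.degree a * b) + X.integral (a * X.degree b) =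
    D * X.integral (a * b)) ?_ ?_ a
  · intro k a ha
    refine X.ind (p := fun b => X.integral (X.degree a * b) + X.integral (a * X.degree b) =
      D * X.integral (a * b)) ?_ ?_ b
    · intro l b hb
      rw [X.degree_of_mem ha, X.degree_of_mem hb, smul_mul_assoc, mul_smul_comm, map_smul,
        map_smul, smul_eq_mul, smul_eq_mul]
      by_cases h : k + l = D
      · have hD : (D : ℂ) = k + l := by rw [← h]; push_cast; ring
        rw [hD]; ring
      · rw [X.integral_part (k + l) h _ (SetLike.mul_mem_graded ha hb)]; ring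
    · intro b b' h h'
      simp only [mul_add, map_add] at *
      linear_combination h + h'
  · intro a a' h h'
    simp only [add_mul, map_add] at *
    linear_combination h + h'

theorem integral_theta (a b : H) :
    X.integral (X.theta a * b) + X.integral (a * X.theta b) = 0 := by
  have := X.integral_degree a b
  simp only [theta, LinearMap.sub_apply, LinearMap.smul_apply, LinearMap.id_apply, sub_mul,
    mul_sub, smul_mul_assoc, mul_smul_comm, map_sub, map_smul, smul_eq_mul]
  linear_combination -this

theorem powTheta_eq (w : ℂ) (a : H) :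
    X.powTheta w a = exp (w * ((D : ℂ) / 2)) • X.scale (exp (-w)) a := by
  refine X.ind (p := fun a => X.powTheta w a = exp (w * ((D : ℂ) / 2)) • X.scale (exp (-w)) a)
    ?_ ?_ a
  · intro k a ha
    rw [X.powTheta_of_mem ha, X.scale_of_mem ha, smul_smul, ← exp_nat_mul, ← exp_add]
    congr 2; ring
  · intro a a' h h'
    simp only [map_add, h, h', smul_add]

theorem c1_pow_mem (n : ℕ) : X.c1 ^ n ∈ X.part n := by
  have := SetLike.pow_mem_graded n X.c1_mem
  simpa using this

theorem c1_pow_eq_zero {n : ℕ} (h : D < n) : X.c1 ^ n = 0 := by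
  have := X.c1_pow_mem n
  rw [X.part_eq_bot n h] at this
  exact (Submodule.mem_bot ℂ).1 this

theorem expC1_eq_exp [Module ℚ H] (s : ℂ) : X.expC1 s = IsNilpotent.exp (s • X.c1) := by
  have h : (s • X.c1) ^ (D + 1) = 0 := by
    rw [smul_pow, X.c1_pow_eq_zero (Nat.lt_succ_self D), smul_zero]
  rw [IsNilpotent.exp_eq_sum h, expC1]
  refine Finset.sum_congr rfl fun i _ => ?_
  rw [smul_pow]
  have h2 : ∀ (q : ℚ) (x : H), q • x = (q : ℂ) • x := by
    intro q x
    have := ratCast_smul_eq ℚ ℂ q x
    simpa using this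
  rw [h2, smul_smul]
  congr 1
  push_cast
  rw [div_eq_mul_inv, mul_comm]

theorem expC1_add (s t : ℂ) : X.expC1 (s + t) = X.expC1 s * X.expC1 t := by
  let _ : Module ℚ H := Module.compHom H (algebraMap ℚ ℂ)
  rw [X.expC1_eq_exp, X.expC1_eq_exp, X.expC1_eq_exp, add_smul]
  have hn : ∀ s : ℂ, IsNilpotent (s • X.c1) := fun s => ⟨D + 1, by
    rw [smul_pow, X.c1_pow_eq_zero (Nat.lt_succ_self D), smul_zero]⟩
  exact IsNilpotent.exp_add_of_commute (Commute.all _ _) (hn s) (hn t)

theorem expC1_zero : X.expC1 0 = 1 := by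
  rw [expC1, Finset.sum_eq_single 0]
  · simp
  · intro b _ hb
    simp [hb]
  · intro h
    exact absurd (Finset.mem_range.2 (Nat.succ_pos D)) h

theorem expC1_neg_mul (s : ℂ) : X.expC1 (-s) * X.expC1 s = 1 := by
  rw [← X.expC1_add, neg_add_cancel, X.expC1_zero]

theorem scale_expC1 (m s : ℂ) : X.scale m (X.expC1 s) = X.expC1 (m * s) := by
  rw [expC1, expC1, map_sum]
  refine Finset.sum_congr rfl fun i _ => ?_
  rw [map_smul, X.scale_of_mem (X.c1_pow_mem i), smul_smul]
  congr 1
  rw [mul_pow]; ring

theorem dual_Ahat : X.dual X.Ahat = X.Ahat := by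
  have h1 : X.Ahat = ∑ k ∈ Finset.range (D + 1), GradedAlgebra.proj X.part k X.Ahat := by
    conv_lhs => rw [← X.scale_one_apply X.Ahat]
    simp [scale, LinearMap.sum_apply]
  conv_rhs => rw [h1]
  simp only [dual, scale, LinearMap.sum_apply, LinearMap.smul_apply]
  refine Finset.sum_congr rfl fun k _ => ?_
  rcases Nat.even_or_odd k with hk | hk
  · rw [hk.neg_one_pow, one_smul]
  · rw [X.Ahat_odd k hk, smul_zero]

theorem dual_mul (a b : H) : X.dual (a * b) = X.dual a * X.dual b := X.scale_mul _ a b

theorem dual_dual (a : H) : X.dual (X.dual a) = a := by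
  rw [dual, dual, X.scale_scale]; norm_num [X.scale_one_apply]

theorem dual_expC1 (s : ℂ) : X.dual (X.expC1 s) = X.expC1 (-s) := by
  rw [dual, X.scale_expC1]; congr 1; ring

theorem dual_todd : X.dual X.todd = X.expC1 (-1) * X.todd := by
  rw [todd, X.dual_mul, X.dual_Ahat, X.dual_expC1, ← mul_assoc, ← X.expC1_add]
  congr 2; norm_num

theorem integral_dual (a : H) : X.integral (X.dual a) = (-1) ^ D * X.integral a :=
  X.integral_scale _ a

/-- Serre duality for the Euler pairing. -/
theorem euler_serre (a b : H) :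
    X.euler a b = (-1) ^ D * X.euler b (X.expC1 (-1) * a) := by
  have h := X.integral_dual (X.dual a * b * X.todd)
  have h3 : ((-1 : ℂ) ^ D) * (-1) ^ D = 1 := by
    rw [← mul_pow]; norm_num
  have h2 : X.integral (X.dual a * b * X.todd) =
      (-1) ^ D * X.integral (X.dual (X.dual a * b * X.todd)) := by
    rw [h, ← mul_assoc, h3, one_mul]
  rw [euler, h2, euler]
  congr 2
  rw [X.dual_mul, X.dual_mul, X.dual_dual, X.dual_todd]
  ring

theorem c1_scale (m : ℂ) (a : H) : X.scale m (X.c1 * a) = m • (X.c1 * X.scale m a) := by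
  rw [X.scale_mul, X.scale_of_mem X.c1_mem, pow_one, smul_mul_assoc]

end CohRing

end Pool.Agent.Helper59.Dub
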