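import Pool.Agent.Helper59.Dub.Alg

/-!
# The pairing of the solutions of the first structure connection
-/

set_option autoImplicit false

namespace Pool.Agent.Helper59.Dub

open Filter Topology Complex

universe u v

section

variable {H : Type u} [AddCommGroup H] [Module ℂ H] [Module.Finite ℂ H]

theorem bilin_expand (B : H →ₗ[ℂ] H →ₗ[ℂ] ℂ) (x y : H) :
    B x y = ∑ k, (Module.finBasis ℂ H).coord k x * B (Module.finBasis ℂ H k) y := by
  have h := (Module.finBasis ℂ H).sum_repr x
  calc B x y = B (∑ k, (Module.finBasis ℂ H).repr x k • Module.finBasis ℂ H k) y := by rw [h]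
    _ = _ := by
      rw [map_sum, LinearMap.sum_apply]
      refine Finset.sum_congr rfl fun k _ => ?_
      rw [map_smul, LinearMap.smul_apply, smul_eq_mul]
      rfl

theorem HasDer.bilin (B : H →ₗ[ℂ] H →ₗ[ℂ] ℂ) {f g : ℂ → H} {f' g' : H} {w : ℂ}
    (hf : HasDer f f' w) (hg : HasDer g g' w) :
    HasDerivAt (fun x => B (f x) (g x)) (B f' (g w) + B (f w) g') w := by
  have h1 : (fun x => B (f x) (g x)) = fun x => ∑ k, (Module.finBasis ℂ H).coord k (f x) *
      B (Module.finBasis ℂ H k) (g x) := by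
    funext x
    exact bilin_expand B _ _
  rw [h1, bilin_expand B f', bilin_expand B (f w), ← Finset.sum_add_distrib]
  refine HasDerivAt.fun_sum fun k _ => ?_
  exact (hf _).mul (hg _)

theorem Tends.bilin (B : H →ₗ[ℂ] H →ₗ[ℂ] ℂ) {T : Type} {F : Filter T} {f g : T → H} {a b : H}
    (hf : Tends f F a) (hg : Tends g F b) :
    Tendsto (fun x => B (f x) (g x)) F (𝓝 (B a b)) := by
  have h1 : (fun x => B (f x) (g x)) = fun x => ∑ k, (Module.finBasis ℂ H).coord k (f x) *
      B (Module.finBasis ℂ H k) (g x) := by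
    funext x
    exact bilin_expand B _ _
  rw [h1, bilin_expand B a b]
  refine tendsto_finsetSum _ fun k _ => ?_
  exact (hf _).mul (hg _)

end

theorem exp_neg_add_pi (w : ℂ) : exp (-(w + Real.pi * I)) = -exp (-w) := by
  rw [neg_add, exp_add, exp_neg (↑Real.pi * I), exp_pi_mul_I]
  norm_num

section

variable {H : Type u} [CommRing H] [Algebra ℂ H] {D : ℕ}

/-- The Poincare pairing. -/
noncomputable def CohRing.pair (X : CohRing H D) : H →ₗ[ℂ] H →ₗ[ℂ] ℂ :=
  (LinearMap.mul ℂ H).compr₂ X.integral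

theorem CohRing.pair_apply (X : CohRing H D) (a b : H) : X.pair a b = X.integral (a * b) := by
  simp [CohRing.pair]

variable {X : CohRing H D} {ι : Type v} [Fintype ι] [DecidableEq ι] (M : MonodromyData X ι)
  [Module.Finite ℂ H]

namespace MonodromyData

/-- The pairing of `X_-(-z)` and `X_+(z)`. -/
noncomputable def F (i j : ι) (w : ℂ) : ℂ :=
  X.integral (M.Xm (w + Real.pi * I) i * M.Xp w j)

theorem F_deriv (i j : ι) (w : ℂ) : HasDerivAt (M.F i j) 0 w := by
  have h1 : HasDer (fun x => M.Xm (x + Real.pi * I) i)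
      (X.theta (M.Xm (w + Real.pi * I) i) + exp (-w) • M.E (M.Xm (w + Real.pi * I) i)) w := by
    intro l
    have h := M.Xm_solution i (w + Real.pi * I) l
    rw [exp_neg_add_pi, neg_smul, sub_neg_eq_add] at h
    exact HasDerivAt.comp_add_const w (Real.pi * I) h
  have h2 := h1.bilin X.pair (M.Xp_solution j w)
  simp only [CohRing.pair_apply] at h2
  have h3 : X.integral ((X.theta (M.Xm (w + Real.pi * I) i) +
      exp (-w) • M.E (M.Xm (w + Real.pi * I) i)) * M.Xp w j) +
      X.integral (M.Xm (w + Real.pi * I) i * (X.theta (M.Xp w j) - exp (-w) • M.E (M.Xp w j))) =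
      0 := by
    have h4 := X.integral_theta (M.Xm (w + Real.pi * I) i) (M.Xp w j)
    have h5 := M.E_selfadjoint (M.Xm (w + Real.pi * I) i) (M.Xp w j)
    simp only [add_mul, mul_sub, smul_mul_assoc, mul_smul_comm, map_add, map_sub, map_smul,
      smul_eq_mul]
    linear_combination h4 + exp (-w) * h5
  rw [h3] at h2
  exact h2

theorem F_const (i j : ι) (w w' : ℂ) : M.F i j w = M.F i j w' :=
  is_const_of_deriv_eq_zero (fun w => (M.F_deriv i j w).differentiableAt)
    (fun w => (M.F_deriv i j w).deriv) w w'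

/-- There is a ray in the right half-plane on which `exp ((u_j - u_i) / z)` is bounded. -/
theorem exists_ray (v : ℂ) (φ : ℝ) (h : ∀ s : ℝ, 0 < s → I * v ≠ s * exp (φ * I)) :
    ∃ α : ℝ, φ - Real.pi < α ∧ α < φ ∧ (v * exp (-(α * I))).re ≤ 0 := by
  set c : ℂ := v * exp (-(φ * I)) with hc
  have hv : v = c * exp (φ * I) := by
    rw [hc, mul_assoc, ← exp_add, neg_add_cancel, exp_zero, mul_one]
  have key : ∀ β : ℝ, (v * exp (-(((φ - β : ℝ) : ℂ) * I))).re =
      c.re * Real.cos β - c.im * Real.sin β := by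
    intro β
    have : v * exp (-(((φ - β : ℝ) : ℂ) * I)) = c * exp (β * I) := by
      rw [hv, mul_assoc, ← exp_add]
      congr 2
      push_cast
      ring
    rw [this, mul_re, exp_ofReal_mul_I_re, exp_ofReal_mul_I_im]
  have hpi := Real.pi_pos
  -- continuity at the two ends
  have hcont : Continuous fun β : ℝ => c.re * Real.cos β - c.im * Real.sin β := by fun_prop
  rcases lt_trichotomy c.re 0 with hlt | heq | hgt
  · have h0 : ∀ᶠ β in 𝓝 (0 : ℝ), c.re * Real.cos β - c.im * Real.sin β < 0 := by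
      have := hcont.tendsto 0
      simp only [Real.cos_zero, Real.sin_zero, mul_one, mul_zero, sub_zero] at this
      exact this.eventually_lt_const hlt
    have h1 : ∀ᶠ β in 𝓝[>] (0 : ℝ), c.re * Real.cos β - c.im * Real.sin β < 0 :=
      h0.filter_mono nhdsWithin_le_nhds
    have h2 : ∀ᶠ β in 𝓝[>] (0 : ℝ), β ∈ Set.Ioo 0 Real.pi := Ioo_mem_nhdsGT hpi
    obtain ⟨β, hβ1, hβ2⟩ := (h1.and h2).exists
    exact ⟨φ - β, by linarith [hβ2.2], by linarith [hβ2.1], by rw [key]; exact hβ1.le⟩
  · refine ⟨φ - Real.pi / 2, by linarith, by linarith, ?_⟩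
    rw [key, heq, Real.cos_pi_div_two, Real.sin_pi_div_two]
    by_contra hneg
    push Not at hneg
    have him : 0 < -c.im := by linarith
    apply h (-c.im) him
    rw [hv]
    have hc2 : c = (c.im : ℂ) * I := by
      apply Complex.ext <;> simp [heq]
    rw [hc2]
    push_cast
    simp only [mul_im, ofReal_re, I_im, mul_one, ofReal_im, I_re, mul_zero, add_zero]
    linear_combination (c.im : ℂ) * exp (φ * I) * I_mul_I
  · have h0 : ∀ᶠ β in 𝓝 Real.pi, c.re * Real.cos β - c.im * Real.sin β < 0 := by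
      have := hcont.tendsto Real.pi
      simp only [Real.cos_pi, Real.sin_pi, mul_zero, sub_zero] at this
      exact this.eventually_lt_const (by linarith)
    have h1 : ∀ᶠ β in 𝓝[<] Real.pi, c.re * Real.cos β - c.im * Real.sin β < 0 :=
      h0.filter_mono nhdsWithin_le_nhds
    have h2 : ∀ᶠ β in 𝓝[<] Real.pi, β ∈ Set.Ioo 0 Real.pi := Ioo_mem_nhdsLT hpi
    obtain ⟨β, hβ1, hβ2⟩ := (h1.and h2).exists
    exact ⟨φ - β, by linarith [hβ2.2], by linarith [hβ2.1], by rw [key]; exact hβ1.le⟩

/-- On a ray, the pairing is an exponential times a function that converges. -/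
theorem F_ray (i j : ι) (α : ℝ) (h1 : M.phi - Real.pi < α) (h2 : α < M.phi) :
    ∃ g : ℝ → ℂ, Tendsto g atBot (𝓝 (if i = j then 1 else 0)) ∧
      ∀ r : ℝ, M.F i j (r + α * I) = exp ((M.u j - M.u i) * exp (-(r + α * I))) * g r := by
  have hm := M.Xm_asymptotic (α + Real.pi) (by linarith) (by linarith) i
  have hp := M.Xp_asymptotic α h1 h2 j
  have h := hm.bilin X.pair hp
  simp only [CohRing.pair_apply, M.Psi_orthonormal] at h
  refine ⟨_, h, fun r => ?_⟩
  have e1 : ((r : ℂ) + ((α + Real.pi : ℝ) : ℂ) * I) = (r + α * I) + Real.pi * I := by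
    push_cast; ring
  rw [e1, exp_neg_add_pi, smul_mul_smul_comm, map_smul, smul_eq_mul, ← mul_assoc, ← exp_add,
    ← exp_add]
  have e2 : (M.u j - M.u i) * exp (-(r + α * I)) +
      (-(M.u i * -exp (-(r + α * I))) + -(M.u j * exp (-(r + α * I)))) = 0 := by ring
  rw [e2, exp_zero, one_mul]
  rfl

/-- `X_-(-z)^T η X_+(z) = 1`. -/
theorem F_eq (i j : ι) (w : ℂ) : M.F i j w = if i = j then 1 else 0 := by
  by_cases hij : i = j
  · subst hij
    have hpi := Real.pi_pos
    obtain ⟨g, hg, hF⟩ := M.F_ray i i (M.phi - Real.pi / 2) (by linarith) (by linarith)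
    simp only [sub_self, zero_mul, exp_zero, one_mul] at hF
    have : Tendsto (fun _ : ℝ => M.F i i w) atBot (𝓝 (if i = i then 1 else 0)) := by
      refine hg.congr fun r => ?_
      rw [← hF r]
      exact M.F_const i i _ _
    exact tendsto_nhds_unique tendsto_const_nhds this
  · obtain ⟨α, h1, h2, h3⟩ := exists_ray (M.u j - M.u i) M.phi (M.admissible j i)
    obtain ⟨g, hg, hF⟩ := M.F_ray i j α h1 h2
    rw [if_neg hij] at hg ⊢
    have hb : ∀ r : ℝ, ‖exp ((M.u j - M.u i) * exp (-(r + α * I)))‖ ≤ 1 := by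
      intro r
      rw [norm_exp, Real.exp_le_one_iff]
      have : (M.u j - M.u i) * exp (-(r + α * I)) =
          ((Real.exp (-r) : ℝ) : ℂ) * ((M.u j - M.u i) * exp (-(α * I))) := by
        rw [neg_add, exp_add]
        push_cast
        ring
      rw [this, re_ofReal_mul]
      exact mul_nonpos_of_nonneg_of_nonpos (Real.exp_pos _).le h3
    have : Tendsto (fun _ : ℝ => M.F i j w) atBot (𝓝 0) := by
      rw [tendsto_zero_iff_norm_tendsto_zero]
      refine squeeze_zero (fun _ => norm_nonneg _) (fun r => ?_)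
        (tendsto_zero_iff_norm_tendsto_zero.1 hg)
      rw [M.F_const i j w (r + α * I), hF r, norm_mul]
      exact mul_le_of_le_one_left (norm_nonneg _) (hb r)
    exact tendsto_nhds_unique tendsto_const_nhds this

end MonodromyData

end

end Pool.Agent.Helper59.Dub
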