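import Mathlib

/-!
# Stokes matrix and central connection matrix: definitions

The cohomology ring of a Fano variety with semisimple quantum cohomology, and the monodromy data
(solutions of the first structure connection at one semisimple point, Stokes matrix, central
connection matrix).
-/

set_option autoImplicit false

namespace Pool.Agent.Helper59.Dub

open Filter Topology Complex

universe u v

noncomputable section

/-- The cohomology ring `H = H^*(X, ℂ)` of a smooth projective variety `X` of dimension `D` all of
whose cohomology is of type `(k, k)` (which is so if the quantum cohomology of `X` is semisimple),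
with what is used of the Chern classes of `X`. -/
structure CohRing (H : Type u) [CommRing H] [Algebra ℂ H] (D : ℕ) where
  /-- `part k` is `H^{2k}(X, ℂ)`, the classes of complex degree `k` -/
  part : ℕ → Submodule ℂ H
  [graded : GradedAlgebra part]
  part_eq_bot : ∀ k, D < k → part k = ⊥
  /-- the integral over `X` -/
  integral : H →ₗ[ℂ] ℂ
  integral_part : ∀ k, k ≠ D → ∀ a ∈ part k, integral a = 0
  /-- Poincare duality -/
  poincare : ∀ a, (∀ b, integral (a * b) = 0) → a = 0
  /-- the first Chern class -/
  c1 : H
  c1_mem : c1 ∈ part 1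
  /-- the `Â`-class of `X`, the product of the `(δ / 2) / sinh (δ / 2)` over the Chern roots `δ`
  of `X`; only its parity is used -/
  Ahat : H
  Ahat_zero : GradedAlgebra.proj part 0 Ahat = 1
  Ahat_odd : ∀ k, Odd k → GradedAlgebra.proj part k Ahat = 0

attribute [instance] CohRing.graded

namespace CohRing

variable {H : Type u} [CommRing H] [Algebra ℂ H] {D : ℕ} (X : CohRing H D)

/-- `m ^ deg`: the operator of multiplication by `m ^ k` on the classes of complex degree `k`. -/
def scale (m : ℂ) : H →ₗ[ℂ] H := ∑ k ∈ Finset.range (D + 1), m ^ k • GradedAlgebra.proj X.part k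

/-- The degree operator, `k` on the classes of complex degree `k`. -/
def degree : H →ₗ[ℂ] H := ∑ k ∈ Finset.range (D + 1), (k : ℂ) • GradedAlgebra.proj X.part k

/-- `θ = D / 2 - deg`. -/
def theta : H →ₗ[ℂ] H := ((D : ℂ) / 2) • LinearMap.id - X.degree

/-- `z ^ θ` for `z = exp w`: the operator of multiplication by `exp (w (D / 2 - k))` on the classes
of complex degree `k`. -/
def powTheta (w : ℂ) : H →ₗ[ℂ] H :=
  ∑ k ∈ Finset.range (D + 1), exp (w * ((D : ℂ) / 2 - k)) • GradedAlgebra.proj X.part k

/-- The class `exp (s c_1)`. -/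
def expC1 (s : ℂ) : H := ∑ k ∈ Finset.range (D + 1), (s ^ k / (k.factorial : ℂ)) • X.c1 ^ k

/-- The duality involution `ch E ↦ ch (E^∨)`, `(-1) ^ k` on the classes of complex degree `k`. -/
def dual (a : H) : H := X.scale (-1) a

/-- The Todd class `exp (c_1 / 2) Â`. -/
def todd : H := X.expC1 (1 / 2) * X.Ahat

/-- The Euler pairing: by the theorem of Hirzebruch and Riemann-Roch
`χ(E, F) = euler (ch E) (ch F)`. -/
def euler (a b : H) : ℂ := X.integral (X.dual a * b * X.todd)

end CohRing

variable {H : Type u} [AddCommGroup H] [Module ℂ H]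

/-- The function `f` with values in a finite-dimensional complex vector space has the derivative
`f'` at `w`. -/
def HasDer (f : ℂ → H) (f' : H) (w : ℂ) : Prop :=
  ∀ l : H →ₗ[ℂ] ℂ, HasDerivAt (fun x => l (f x)) (l f') w

/-- The function `f` with values in a finite-dimensional complex vector space converges to `a`. -/
def Tends {T : Type} (f : T → H) (F : Filter T) (a : H) : Prop :=
  ∀ l : H →ₗ[ℂ] ℂ, Tendsto (fun x => l (f x)) F (𝓝 (l a))

/-- `J` is a solution of the system `z dJ/dz = θ J - z⁻¹ (E •) J` (the equation
`(z ∂_z + E) J = θ J` of the first structure connection at one point), as a function of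
`w = log z`. -/
def IsSolution (θ E : H →ₗ[ℂ] H) (J : ℂ → H) : Prop :=
  ∀ w, HasDer J (θ (J w) - exp (-w) • E (J w)) w

end

noncomputable section

/-- The monodromy data at a semisimple point of the quantum cohomology. All solutions are
written as functions of `w = log z`, so they are functions on the whole plane. The index set `ι` has
as many elements as the dimension of `H` (see the theorems). -/
structure MonodromyData {H : Type u} [CommRing H] [Algebra ℂ H] {D : ℕ} (X : CohRing H D)
    (ι : Type v) [Fintype ι] [DecidableEq ι] where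
  /-- the quantum multiplication by the Euler field at the point -/
  E : H →ₗ[ℂ] H
  E_selfadjoint : ∀ a b, X.integral (E a * b) = X.integral (a * E b)
  /-- the canonical coordinates -/
  u : ι → ℂ
  /-- the columns of `Ψ`, the normalized idempotents -/
  Psi : ι → H
  Psi_orthonormal : ∀ i j, X.integral (Psi i * Psi j) = if i = j then 1 else 0
  E_Psi : ∀ i, E (Psi i) = u i • Psi i
  /-- the positive half of the oriented line `ℓ` consists of the `z` of argument `φ` -/
  phi : ℝ
  /-- the line `ℓ` contains no ray `i (u_i - u_j) ℝ_{>0}` (for both halves: interchange `i`, `j`) -/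
  admissible : ∀ (i j : ι) (s : ℝ), 0 < s → I * (u i - u j) ≠ s * exp (phi * I)
  /-- the columns of the solution `X_+` -/
  Xp : ℂ → ι → H
  /-- the columns of the solution `X_-` -/
  Xm : ℂ → ι → H
  Xp_solution : ∀ j, IsSolution X.theta E fun w => Xp w j
  Xm_solution : ∀ j, IsSolution X.theta E fun w => Xm w j
  /-- `X_+ ~ Ψ R e^{U/z}` for `z → 0` in the right half-plane (leading term, along rays) -/
  Xp_asymptotic : ∀ α : ℝ, phi - Real.pi < α → α < phi → ∀ j,
    Tends (fun r : ℝ => exp (-(u j * exp (-(r + α * I)))) • Xp (r + α * I) j) atBot (Psi j)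
  /-- `X_- ~ Ψ R e^{U/z}` for `z → 0` in the left half-plane (leading term, along rays) -/
  Xm_asymptotic : ∀ α : ℝ, phi < α → α < phi + Real.pi → ∀ j,
    Tends (fun r : ℝ => exp (-(u j * exp (-(r + α * I)))) • Xm (r + α * I) j) atBot (Psi j)
  /-- the calibration `𝒮 = 1 + O(1/z)` near `z = ∞` -/
  cal : ℂ → H →ₗ[ℂ] H
  cal_lim : ∀ x, Tends (fun z => cal z x) (cocompact ℂ) x
  /-- the solution `Z = 𝒮 z^θ z^{-ρ}` -/
  Z : ℂ → H →ₗ[ℂ] H
  Z_solution : ∀ x, IsSolution X.theta E fun w => Z w x
  rad : ℝ
  Z_eq : ∀ w : ℂ, rad < w.re → ∀ x, Z w x = cal (exp w) (X.powTheta w (X.expC1 (-w) * x))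
  /-- the Stokes matrix: `X_- = X_+ S` on the positive half of `ℓ` -/
  S : Matrix ι ι ℂ
  S_eq : ∀ w j, Xm w j = ∑ i, S i j • Xp w i
  /-- the columns of the central connection matrix: `X_- = Z C` -/
  C : ι → H
  C_eq : ∀ w j, Xm w j = Z w (C j)

/-- The calibration satisfies `𝒮(-z)^* 𝒮(z) = 1` (as the one by descendant invariants does). -/
def MonodromyData.IsUnitary {H : Type u} [CommRing H] [Algebra ℂ H] {D : ℕ} {X : CohRing H D}
    {ι : Type v} [Fintype ι] [DecidableEq ι] (M : MonodromyData X ι) : Prop :=
  ∀ w : ℂ, M.rad < w.re → ∀ x y,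
    X.integral (M.cal (-exp w) x * M.cal (exp w) y) = X.integral (x * y)

/-- Part (a) of the conjecture for the classes `v j = ch (E_j)`: the Stokes matrix is the matrix of
the Euler pairings `χ(E_i, E_j)`. -/
def MonodromyData.PartA {H : Type u} [CommRing H] [Algebra ℂ H] {D : ℕ} {X : CohRing H D}
    {ι : Type v} [Fintype ι] [DecidableEq ι] (M : MonodromyData X ι) (v : ι → H) : Prop :=
  ∀ i j, M.S i j = X.euler (v i) (v j)

/-- Part (b) of the conjecture for the classes `v j` as the columns of the matrix `C''`:
`C = C' C''` with a linear operator `C'` which commutes with the multiplication by `c_1`. -/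
def MonodromyData.PartB {H : Type u} [CommRing H] [Algebra ℂ H] {D : ℕ} {X : CohRing H D}
    {ι : Type v} [Fintype ι] [DecidableEq ι] (M : MonodromyData X ι) (v : ι → H) : Prop :=
  ∃ C' : H →ₗ[ℂ] H, (∀ j, M.C j = C' (v j)) ∧ ∀ a, C' (X.c1 * a) = X.c1 * C' a

end

end Pool.Agent.Helper59.Dub
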