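import Pool.Agent.Helper59.Dub.Ana

/-!
# The Stokes matrix determines the form of the central connection matrix
-/

set_option autoImplicit false

namespace Pool.Agent.Helper59.Dub

open Filter Topology Complex

universe u v

/-- A linear map that intertwines `exp (-c_1)` and `exp (-m c_1)` intertwines `c_1` and
`m c_1`. -/
theorem CohRing.log_intertwine {H : Type u} [CommRing H] [Algebra ℂ H] {D : ℕ} (X : CohRing H D)
    (T : H →ₗ[ℂ] H) (m : ℂ) (h : ∀ a, T (X.expC1 (-1) * a) = X.expC1 (-m) * T a) (a : H) :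
    T (X.c1 * a) = m • (X.c1 * T a) := by
  by_cases hD : D = 0
  · have hc : X.c1 = 0 := by
      have := X.c1_pow_eq_zero (n := 1) (by omega)
      simpa using this
    simp [hc]
  have h1 : ∀ n : ℕ, T (X.expC1 (-(n : ℂ)) * a) = X.expC1 (-(m * n)) * T a := by
    intro n
    induction n with
    | zero => simp [X.expC1_zero]
    | succ n ih =>
      have e1 : (-((n + 1 : ℕ) : ℂ)) = -1 + -(n : ℂ) := by push_cast; ring
      have e2 : (-(m * ((n + 1 : ℕ) : ℂ))) = -m + -(m * (n : ℂ)) := by push_cast; ring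
      rw [e1, e2, X.expC1_add, X.expC1_add, mul_assoc, h, ih, mul_assoc]
  rw [← sub_eq_zero, ← Module.forall_dual_apply_eq_zero_iff ℂ]
  intro l
  let P : Polynomial ℂ := ∑ k ∈ Finset.range (D + 1),
    Polynomial.C ((-1) ^ k / (k.factorial : ℂ) * l (T (X.c1 ^ k * a))) * Polynomial.X ^ k
  let Q : Polynomial ℂ := ∑ k ∈ Finset.range (D + 1),
    Polynomial.C ((-m) ^ k / (k.factorial : ℂ) * l (X.c1 ^ k * T a)) * Polynomial.X ^ k
  have hP : ∀ n : ℕ, P.eval (n : ℂ) = l (T (X.expC1 (-(n : ℂ)) * a)) := by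
    intro n
    simp only [P, Polynomial.eval_finsetSum, Polynomial.eval_mul, Polynomial.eval_C,
      Polynomial.eval_pow, Polynomial.eval_X, CohRing.expC1, Finset.sum_mul, map_sum,
      smul_mul_assoc, map_smul, smul_eq_mul]
    refine Finset.sum_congr rfl fun k _ => ?_
    rw [neg_pow (n : ℂ) k]; ring
  have hQ : ∀ n : ℕ, Q.eval (n : ℂ) = l (X.expC1 (-(m * n)) * T a) := by
    intro n
    simp only [Q, Polynomial.eval_finsetSum, Polynomial.eval_mul, Polynomial.eval_C,
      Polynomial.eval_pow, Polynomial.eval_X, CohRing.expC1, Finset.sum_mul, map_sum,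
      smul_mul_assoc, map_smul, smul_eq_mul]
    refine Finset.sum_congr rfl fun k _ => ?_
    rw [← neg_mul, mul_pow]; ring
  have hPQ : P = Q := by
    refine Polynomial.eq_of_infinite_eval_eq _ _ ?_
    refine Set.Infinite.mono ?_ (Set.infinite_range_of_injective (Nat.cast_injective (R := ℂ)))
    rintro _ ⟨n, rfl⟩
    show P.eval (n : ℂ) = Q.eval (n : ℂ)
    rw [hP, hQ, h1]
  have hcoeff := congrArg (fun R => Polynomial.coeff R 1) hPQ
  have hmem : (1 : ℕ) ∈ Finset.range (D + 1) := Finset.mem_range.2 (by omega)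
  simp only [P, Q, Polynomial.finsetSum_coeff, Polynomial.coeff_C_mul, Polynomial.coeff_X_pow,
    mul_ite, mul_one, mul_zero, Finset.sum_ite_eq, hmem, if_true, pow_one, Nat.factorial_one,
    Nat.cast_one, div_one] at hcoeff
  rw [map_sub, map_smul, smul_eq_mul]
  linear_combination -hcoeff

namespace MonodromyData

variable {H : Type u} [CommRing H] [Algebra ℂ H] {D : ℕ}
variable {X : CohRing H D} {ι : Type v} [Fintype ι] [DecidableEq ι] (M : MonodromyData X ι)
  [Module.Finite ℂ H]

/-- The Stokes matrix is the Gram matrix of `X_-` for the pairing of `z` and `-z`. -/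
theorem S_eq_pair (i j : ι) (w : ℂ) :
    M.S i j = X.integral (M.Xm (w + Real.pi * I) i * M.Xm w j) := by
  rw [M.S_eq w j, Finset.mul_sum, map_sum]
  have : ∀ k, X.integral (M.Xm (w + Real.pi * I) i * M.S k j • M.Xp w k) =
      M.S k j * (if i = k then 1 else 0) := by
    intro k
    rw [mul_smul_comm, map_smul, smul_eq_mul]
    congr 1
    exact M.F_eq i k w
  simp only [this, mul_ite, mul_one, mul_zero, Finset.sum_ite_eq, Finset.mem_univ, if_true]

theorem linInd_Xm (w : ℂ) : LinearIndependent ℂ (M.Xm w) := by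
  rw [Fintype.linearIndependent_iff]
  intro a ha j
  have h := congrArg (fun x => X.integral (x * M.Xp (w - Real.pi * I) j)) ha
  simp only [Finset.sum_mul, map_sum, zero_mul, map_zero, smul_mul_assoc, map_smul,
    smul_eq_mul] at h
  have h2 : ∀ k, X.integral (M.Xm w k * M.Xp (w - Real.pi * I) j) = if k = j then 1 else 0 := by
    intro k
    have := M.F_eq k j (w - Real.pi * I)
    rw [F, sub_add_cancel] at this
    exact this
  simpa [h2] using h

variable (hN : Module.finrank ℂ H = Fintype.card ι)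

include hN

theorem span_Xm (w : ℂ) : Submodule.span ℂ (Set.range (M.Xm w)) = ⊤ :=
  (M.linInd_Xm w).span_eq_top_of_card_eq_finrank' hN.symm

omit [Module.Finite ℂ H] hN in
theorem linInd_C [Module.Finite ℂ H] : LinearIndependent ℂ M.C := by
  have h : LinearIndependent ℂ (fun j => M.Z 0 (M.C j)) := by
    have := M.linInd_Xm 0
    simpa only [funext fun j => M.C_eq 0 j] using this
  exact LinearIndependent.of_comp (M.Z 0) h

theorem span_C : Submodule.span ℂ (Set.range M.C) = ⊤ :=
  M.linInd_C.span_eq_top_of_card_eq_finrank' hN.symm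

omit hN in
/-- On the negative half of the line the Stokes matrix is the transpose. -/
theorem other_half (hN : Module.finrank ℂ H = Fintype.card ι) (w : ℂ) (j : ι) :
    M.Xm (w + 2 * Real.pi * I) j = ∑ i, M.S j i • M.Xp w i := by
  rw [← sub_eq_zero]
  refine X.poincare _ fun b => ?_
  have hb : b ∈ Submodule.span ℂ (Set.range (M.Xm (w + Real.pi * I))) := by
    rw [M.span_Xm hN]; trivial
  induction hb using Submodule.span_induction with
  | mem b hb =>
    obtain ⟨k, rfl⟩ := hb
    rw [sub_mul, map_sub, Finset.sum_mul, map_sum]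
    have h1 : X.integral (M.Xm (w + 2 * Real.pi * I) j * M.Xm (w + Real.pi * I) k) = M.S j k := by
      rw [M.S_eq_pair j k (w + Real.pi * I)]
      congr 3; ring
    have h2 : ∀ i, X.integral (M.S j i • M.Xp w i * M.Xm (w + Real.pi * I) k) =
        M.S j i * (if k = i then 1 else 0) := by
      intro i
      rw [smul_mul_assoc, map_smul, smul_eq_mul, mul_comm (M.Xp w i)]
      congr 1
      exact M.F_eq k i w
    rw [h1, Finset.sum_congr rfl fun i _ => h2 i]
    simp
  | zero => simp
  | add a b _ _ ha hb => rw [mul_add, map_add, ha, hb, add_zero]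
  | smul c a _ ha => rw [mul_smul_comm, map_smul, ha, smul_zero]

/-- A point near `z = ∞`. -/
noncomputable def w0 (M : MonodromyData X ι) : ℂ := ((M.rad + 1 : ℝ) : ℂ)

omit hN in
omit [Module.Finite ℂ H] in
theorem rad_lt (x : ℝ) : M.rad < (M.w0 + x * I).re := by
  simp [w0]

/-- The bilinear form on the cohomology with the Stokes matrix as its Gram matrix on the columns
of `C`. -/
noncomputable def form (M : MonodromyData X ι) : H →ₗ[ℂ] H →ₗ[ℂ] ℂ :=
  X.pair.compl₁₂ (M.Z (M.w0 + Real.pi * I)) (M.Z M.w0)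

omit hN in
theorem form_C (i j : ι) : M.form (M.C i) (M.C j) = M.S i j := by
  rw [M.S_eq_pair i j M.w0, M.C_eq, M.C_eq]
  simp [form, CohRing.pair_apply]

theorem form_eq (w : ℂ) (x y : H) :
    X.integral (M.Z (w + Real.pi * I) x * M.Z w y) = M.form x y := by
  have h : X.pair.compl₁₂ (M.Z (w + Real.pi * I)) (M.Z w) = M.form := by
    refine LinearMap.ext_on_range (M.span_C hN) fun i => ?_
    refine LinearMap.ext_on_range (M.span_C hN) fun j => ?_
    rw [M.form_C i j, M.S_eq_pair i j w, M.C_eq, M.C_eq]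
    simp [CohRing.pair_apply]
  rw [← h]
  simp [CohRing.pair_apply]

/-- The form is nondegenerate. -/
theorem form_nondeg (y : H) (h : ∀ x, M.form x y = 0) : y = 0 := by
  have hZ : M.Z M.w0 y = 0 := by
    refine X.poincare _ fun b => ?_
    have hb : b ∈ Submodule.span ℂ (Set.range (M.Xm (M.w0 + Real.pi * I))) := by
      rw [M.span_Xm hN]; trivial
    induction hb using Submodule.span_induction with
    | mem b hb =>
      obtain ⟨k, rfl⟩ := hb
      rw [M.C_eq, mul_comm]
      have := h (M.C k)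
      rwa [← M.form_eq hN M.w0] at this
    | zero => simp
    | add a b _ _ ha hb => rw [mul_add, map_add, ha, hb, add_zero]
    | smul c a _ ha => rw [mul_smul_comm, map_smul, ha, smul_zero]
  -- coordinates in the basis `C`
  let bC : Module.Basis ι ℂ H := Module.Basis.mk M.linInd_C (M.span_C hN).ge
  have hy : y = ∑ j, bC.repr y j • M.C j := by
    conv_lhs => rw [← bC.sum_repr y]
    simp [bC]
  rw [hy, map_sum] at hZ
  have hZ' : ∑ j, bC.repr y j • M.Xm M.w0 j = 0 := by
    rw [← hZ]
    refine Finset.sum_congr rfl fun j _ => ?_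
    rw [map_smul, M.C_eq]
  have h0 := (Fintype.linearIndependent_iff.1 (M.linInd_Xm M.w0)) _ hZ'
  rw [hy]
  exact Finset.sum_eq_zero fun j _ => by rw [h0 j, zero_smul]

omit hN in
omit [Module.Finite ℂ H] in
/-- The monodromy of `Z` around `z = ∞`. -/
theorem Z_monodromy (x : H) :
    M.Z (M.w0 + 2 * Real.pi * I) x =
      ((-1 : ℂ) ^ D) • M.Z M.w0 (X.expC1 (-(2 * Real.pi * I)) * x) := by
  have h1 : M.rad < (M.w0 + 2 * Real.pi * I).re := by
    have := M.rad_lt (2 * Real.pi)
    push_cast at this
    exact this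
  have h2 : M.rad < M.w0.re := by
    have := M.rad_lt 0
    simpa using this
  rw [M.Z_eq _ h1, M.Z_eq _ h2, exp_periodic M.w0, X.powTheta_eq, X.powTheta_eq, neg_add,
    X.expC1_add, mul_assoc (X.expC1 _)]
  have e1 : exp (-M.w0 + -(2 * Real.pi * I)) = exp (-M.w0) := by
    rw [exp_add, exp_neg (2 * ↑Real.pi * I), exp_two_pi_mul_I]; norm_num
  have e2 : exp ((M.w0 + 2 * Real.pi * I) * ((D : ℂ) / 2)) =
      (-1) ^ D * exp (M.w0 * ((D : ℂ) / 2)) := by
    rw [add_mul, exp_add, mul_comm]
    congr 1
    have : 2 * (Real.pi : ℂ) * I * ((D : ℂ) / 2) = (D : ℂ) * (Real.pi * I) := by ring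
    rw [this, exp_nat_mul, exp_pi_mul_I]
  rw [e1, e2, mul_smul, map_smul]

/-- Serre duality for the form: the monodromy at `z = ∞`. -/
theorem form_serre (x y : H) :
    M.form x y = (-1) ^ D * M.form y (X.expC1 (-(2 * Real.pi * I)) * x) := by
  have h1 := M.form_eq hN (M.w0 + Real.pi * I) x y
  have e1 : M.w0 + Real.pi * I + Real.pi * I = M.w0 + 2 * Real.pi * I := by ring
  rw [e1, M.Z_monodromy x] at h1
  rw [← h1, ← M.form_eq hN M.w0 y, smul_mul_assoc, map_smul, mul_comm (M.Z M.w0 _), smul_eq_mul]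

end MonodromyData

/-- The Euler pairing as a bilinear map. -/
noncomputable def CohRing.eulerForm {H : Type u} [CommRing H] [Algebra ℂ H] {D : ℕ}
    (X : CohRing H D) : H →ₗ[ℂ] H →ₗ[ℂ] ℂ :=
  X.pair.compl₁₂ (X.scale (-1)) (LinearMap.mulRight ℂ X.todd)

theorem CohRing.eulerForm_apply {H : Type u} [CommRing H] [Algebra ℂ H] {D : ℕ}
    (X : CohRing H D) (a b : H) : X.eulerForm a b = X.euler a b := by
  simp [CohRing.eulerForm, CohRing.pair_apply, CohRing.euler, CohRing.dual, mul_assoc]

section

variable {H : Type u} [CommRing H] [Algebra ℂ H] [Module.Finite ℂ H] {D : ℕ}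
variable {X : CohRing H D} {ι : Type v} [Fintype ι] [DecidableEq ι] (M : MonodromyData X ι)
variable (hN : Module.finrank ℂ H = Fintype.card ι)

include hN

/-- Vectors with the Stokes matrix as their Gram matrix for the Euler pairing are linearly
independent. -/
theorem linInd_of_gram (v : ι → H) (ha : ∀ i j, M.S i j = X.euler (v i) (v j)) :
    LinearIndependent ℂ v := by
  rw [Fintype.linearIndependent_iff]
  intro a h0
  have h1 : ∑ j, a j • M.C j = 0 := by
    refine M.form_nondeg hN _ fun x => ?_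
    have hx : x ∈ Submodule.span ℂ (Set.range M.C) := by rw [M.span_C hN]; trivial
    induction hx using Submodule.span_induction with
    | mem b hb =>
      obtain ⟨i, rfl⟩ := hb
      have h2 : X.eulerForm (v i) (∑ j, a j • v j) = 0 := by rw [h0, map_zero]
      rw [map_sum] at h2 ⊢
      rw [← h2]
      refine Finset.sum_congr rfl fun j _ => ?_
      rw [map_smul, map_smul, M.form_C, ha, X.eulerForm_apply]
    | zero => simp
    | add a b _ _ ha hb => rw [map_add, LinearMap.add_apply, ha, hb, add_zero]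
    | smul c a _ ha => rw [map_smul, LinearMap.smul_apply, ha, smul_zero]
  exact Fintype.linearIndependent_iff.1 M.linInd_C a h1

/-- The isomorphism from the vectors `v` to the columns of the central connection matrix. -/
theorem exists_equiv (v : ι → H) (ha : ∀ i j, M.S i j = X.euler (v i) (v j)) :
    ∃ T : H ≃ₗ[ℂ] H, (∀ j, T (v j) = M.C j) ∧ (∀ a b, M.form (T a) (T b) = X.euler a b) := by
  have hv := linInd_of_gram M hN v ha
  have hs : Submodule.span ℂ (Set.range v) = ⊤ := hv.span_eq_top_of_card_eq_finrank' hN.symm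
  let bv : Module.Basis ι ℂ H := Module.Basis.mk hv hs.ge
  let bC : Module.Basis ι ℂ H := Module.Basis.mk M.linInd_C (M.span_C hN).ge
  let T : H ≃ₗ[ℂ] H := bv.equiv bC (Equiv.refl ι)
  have hT : ∀ j, T (v j) = M.C j := by
    intro j
    have := bv.equiv_apply j bC (Equiv.refl ι)
    simpa [bv, bC, T] using this
  refine ⟨T, hT, ?_⟩
  have h : M.form.compl₁₂ T.toLinearMap T.toLinearMap = X.eulerForm := by
    refine LinearMap.ext_on_range hs fun i => ?_
    refine LinearMap.ext_on_range hs fun j => ?_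
    simp only [LinearMap.compl₁₂_apply, LinearEquiv.coe_coe, hT]
    rw [M.form_C, ha, X.eulerForm_apply]
  intro a b
  rw [← X.eulerForm_apply, ← h]
  simp

theorem intertwine (T : H ≃ₗ[ℂ] H)
    (hform : ∀ a b, M.form (T a) (T b) = X.euler a b) (a : H) :
    T (X.c1 * a) = (2 * Real.pi * I) • (X.c1 * T a) := by
  refine X.log_intertwine T.toLinearMap (2 * Real.pi * I) (fun a => ?_) a
  rw [← sub_eq_zero]
  refine M.form_nondeg hN _ fun x => ?_
  obtain ⟨b, rfl⟩ := T.surjective x
  rw [map_sub, LinearEquiv.coe_coe, hform, sub_eq_zero]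
  have h1 := X.euler_serre a b
  have h2 := M.form_serre hN (T a) (T b)
  rw [hform] at h2
  have h3 : ((-1 : ℂ) ^ D) ≠ 0 := pow_ne_zero _ (by norm_num)
  rw [h1] at h2
  exact mul_left_cancel₀ h3 h2

end

end Pool.Agent.Helper59.Dub
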