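import Pool.Agent.Helper59.Dub.Main

/-!
# The parts of the theorem
-/

set_option autoImplicit false

namespace Pool.Agent.Helper59.Dub

open Filter Topology Complex

universe u v

theorem two_pi_I_ne : (2 * Real.pi * I : ℂ) ≠ 0 := two_pi_I_ne_zero

theorem const_eq (D : ℕ) : ((I : ℂ) ^ D)⁻¹ * ((2 * Real.pi * I : ℂ) ^ D)⁻¹ =
    ((-(2 * Real.pi) : ℂ) ^ D)⁻¹ := by
  rw [← mul_inv, ← mul_pow]
  have : (I * (2 * Real.pi * I) : ℂ) = -(2 * Real.pi) := by
    linear_combination (2 * Real.pi : ℂ) * I_mul_I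
  rw [this]

section

variable {H : Type u} [CommRing H] [Algebra ℂ H] {D : ℕ} (X : CohRing H D)

theorem CohRing.scale_inv (m : ℂ) (hm : m ≠ 0) (a : H) : X.scale m (X.scale m⁻¹ a) = a := by
  rw [X.scale_scale, mul_inv_cancel₀ hm, X.scale_one_apply]

theorem CohRing.scale_inv' (m : ℂ) (hm : m ≠ 0) (a : H) : X.scale m⁻¹ (X.scale m a) = a := by
  rw [X.scale_scale, inv_mul_cancel₀ hm, X.scale_one_apply]

/-- `m ^ deg` as a linear automorphism. -/
noncomputable def CohRing.scaleEquiv (m : ℂ) (hm : m ≠ 0) : H ≃ₗ[ℂ] H :=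
  LinearEquiv.ofLinearMap (X.scale m) (X.scale m⁻¹)
    (LinearMap.ext fun a => X.scale_inv m hm a) (LinearMap.ext fun a => X.scale_inv' m hm a)

theorem CohRing.scale_dual (m : ℂ) (a : H) : X.scale m (X.dual a) = X.dual (X.scale m a) := by
  rw [dual, dual, X.scale_scale, X.scale_scale, mul_comm]

/-- The Euler pairing in terms of the classes `(2 π i) ^ deg ch`. -/
theorem CohRing.euler_scale (a b : H) :
    X.euler a b = ((2 * Real.pi * I) ^ D)⁻¹ * X.integral (X.expC1 (Real.pi * I) *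
      X.scale (2 * Real.pi * I) X.Ahat * X.dual (X.scale (2 * Real.pi * I) a) *
        X.scale (2 * Real.pi * I) b) := by
  have h := X.integral_scale (2 * Real.pi * I) (X.dual a * b * X.todd)
  have h2 : X.scale (2 * Real.pi * I) (X.dual a * b * X.todd) = X.expC1 (Real.pi * I) *
      X.scale (2 * Real.pi * I) X.Ahat * X.dual (X.scale (2 * Real.pi * I) a) *
        X.scale (2 * Real.pi * I) b := by
    rw [X.scale_mul, X.scale_mul, todd, X.scale_mul, X.scale_expC1, X.scale_dual]
    have : (2 * Real.pi * I : ℂ) * (1 / 2) = Real.pi * I := by ring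
    rw [this]; ring
  rw [h2] at h
  rw [h, euler, ← mul_assoc, inv_mul_cancel₀ (pow_ne_zero _ two_pi_I_ne), one_mul]

theorem CohRing.eq_of_integral (a b : H)
    (h : ∀ c, X.integral (a * c) = X.integral (b * c)) : a = b := by
  rw [← sub_eq_zero]
  refine X.poincare _ fun c => ?_
  rw [sub_mul, map_sub, h, sub_self]

/-- `χ(E, F) = χ(F^∨, E^∨)`. -/
theorem CohRing.euler_dual (a b : H) :
    X.euler a b = X.euler (X.dual b) (X.dual a) := by
  rw [CohRing.euler, CohRing.euler, X.dual_dual]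
  congr 1
  ring

end

section

variable {H : Type u} [CommRing H] [Algebra ℂ H] [Module.Finite ℂ H] {D : ℕ}
variable {X : CohRing H D} {ι : Type v} [Fintype ι] [DecidableEq ι] (M : MonodromyData X ι)
variable (hN : Module.finrank ℂ H = Fintype.card ι)

include hN

/-- Part (a) of the conjecture implies part (b). -/
theorem stokes_imp_connection (v : ι → H) (ha : ∀ i j, M.S i j = X.euler (v i) (v j)) :
    ∃ T : H ≃ₗ[ℂ] H, (∀ j, M.C j = T (X.scale (2 * Real.pi * I) (v j))) ∧
      (∀ a, T (X.c1 * a) = X.c1 * T a) ∧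
      ∀ a b, M.form (T (X.scale (2 * Real.pi * I) a)) (T (X.scale (2 * Real.pi * I) b)) =
        X.euler a b := by
  obtain ⟨T, hT, hform⟩ := exists_equiv M hN v ha
  have hc := intertwine M hN T hform
  have h2 : ((2 * Real.pi * I : ℂ))⁻¹ ≠ 0 := inv_ne_zero two_pi_I_ne
  refine ⟨(X.scaleEquiv _ h2).trans T, fun j => ?_, fun a => ?_, fun a b => ?_⟩
  · show M.C j = T (X.scale _ (X.scale _ (v j)))
    rw [X.scale_inv' _ two_pi_I_ne, hT]
  · show T (X.scale _ (X.c1 * a)) = X.c1 * T (X.scale _ a)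
    rw [X.c1_scale, map_smul, hc, smul_smul, inv_mul_cancel₀ two_pi_I_ne, one_smul]
  · show M.form (T (X.scale _ (X.scale _ a))) (T (X.scale _ (X.scale _ b))) = _
    rw [X.scale_inv' _ two_pi_I_ne, X.scale_inv' _ two_pi_I_ne, hform]

/-- The bare Chern characters cannot be used in (b). -/
theorem literal (v : ι → H) (ha : ∀ i j, M.S i j = X.euler (v i) (v j)) (T' : H →ₗ[ℂ] H)
    (hT' : ∀ j, M.C j = T' (v j)) (hc' : ∀ a, T' (X.c1 * a) = X.c1 * T' a) : X.c1 = 0 := by
  obtain ⟨T, hT, hform⟩ := exists_equiv M hN v ha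
  have hc := intertwine M hN T hform
  have hv := linInd_of_gram M hN v ha
  have hs : Submodule.span ℂ (Set.range v) = ⊤ := hv.span_eq_top_of_card_eq_finrank' hN.symm
  have hTT : T.toLinearMap = T' := by
    refine LinearMap.ext_on_range hs fun j => ?_
    rw [LinearEquiv.coe_coe, hT, hT']
  have h1 : ∀ a, X.c1 * T a = (2 * Real.pi * I) • (X.c1 * T a) := by
    intro a
    rw [← hc a]
    have h := hc' a
    rw [← hTT] at h
    exact h.symm
  obtain ⟨a, ha1⟩ := T.surjective 1
  have h3 := h1 a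
  rw [ha1, mul_one] at h3
  have h4 : ((2 * Real.pi * I : ℂ) - 1) • X.c1 = 0 := by
    rw [sub_smul, one_smul, ← h3, sub_self]
  rcases smul_eq_zero.1 h4 with h5 | h5
  · exfalso
    have := congrArg Complex.re h5
    simp at this
  · exact h5

/-- The form in terms of the Poincare pairing, for a unitary calibration. -/
theorem form_unitary (hU : M.IsUnitary) (x y : H) :
    M.form x y = I ^ D * X.integral (X.expC1 (Real.pi * I) * X.dual x * y) := by
  have h1 : M.rad < (M.w0 + Real.pi * I).re := M.rad_lt Real.pi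
  have h2 : M.rad < M.w0.re := by
    have := M.rad_lt 0
    simpa using this
  rw [← M.form_eq hN M.w0, M.Z_eq _ h1, M.Z_eq _ h2]
  have e1 : exp (M.w0 + Real.pi * I) = -exp M.w0 := by
    rw [exp_add, exp_pi_mul_I]; ring
  have e3 : exp (-(M.w0 + Real.pi * I)) = -1 * exp (-M.w0) := by
    rw [exp_neg_add_pi]; ring
  rw [e1, hU _ h2, X.powTheta_eq, X.powTheta_eq, e3, smul_mul_smul_comm, map_smul, smul_eq_mul,
    mul_comm (-1) (exp (-M.w0)), ← X.scale_scale, ← X.scale_mul, X.integral_scale]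
  have e4 : X.scale (-1) (X.expC1 (-(M.w0 + Real.pi * I)) * x) * (X.expC1 (-M.w0) * y) =
      X.expC1 (Real.pi * I) * X.dual x * y := by
    rw [X.scale_mul, X.scale_expC1]
    have e5 : (Real.pi * I : ℂ) = -1 * (-(M.w0 + Real.pi * I)) + -M.w0 := by ring
    conv_rhs => rw [e5]
    rw [X.expC1_add, CohRing.dual]
    ring
  rw [e4, ← mul_assoc]
  congr 1
  rw [← exp_nat_mul, ← exp_add, ← exp_add]
  have e6 : (M.w0 + Real.pi * I) * ((D : ℂ) / 2) + M.w0 * ((D : ℂ) / 2) + (D : ℂ) * -M.w0 =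
      (D : ℂ) * (Real.pi / 2 * I) := by ring
  rw [e6, exp_nat_mul, exp_pi_div_two_mul_I]

omit hN in
theorem unitary_iff (hN : Module.finrank ℂ H = Fintype.card ι) (hU : M.IsUnitary) (v : ι → H) :
    (∀ i j, M.S i j = X.euler (v i) (v j)) ↔
      ∃ T : H →ₗ[ℂ] H, (∀ j, M.C j = T (X.scale (2 * Real.pi * I) (v j))) ∧
        (∀ a, T (X.c1 * a) = X.c1 * T a) ∧
        ∀ a b, X.integral (X.expC1 (Real.pi * I) * X.dual (T a) * T b) =
          ((-(2 * Real.pi) : ℂ) ^ D)⁻¹ * X.integral (X.expC1 (Real.pi * I) *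
            X.scale (2 * Real.pi * I) X.Ahat * X.dual a * b) := by
  have hI : (I : ℂ) ^ D ≠ 0 := pow_ne_zero _ I_ne_zero
  constructor
  · intro ha
    obtain ⟨T, h1, h2, h3⟩ := stokes_imp_connection M hN v ha
    refine ⟨T.toLinearMap, h1, h2, fun a b => ?_⟩
    have h4 := h3 (X.scale (2 * Real.pi * I)⁻¹ a) (X.scale (2 * Real.pi * I)⁻¹ b)
    rw [X.euler_scale, X.scale_inv _ two_pi_I_ne, X.scale_inv _ two_pi_I_ne,
      form_unitary M hN hU] at h4
    rw [← const_eq D, mul_assoc (I ^ D)⁻¹, ← h4, ← mul_assoc, inv_mul_cancel₀ hI, one_mul]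
    rfl
  · rintro ⟨T, h1, -, h3⟩ i j
    rw [← M.form_C, h1, h1, form_unitary M hN hU, h3, X.euler_scale, ← const_eq D, ← mul_assoc,
      ← mul_assoc, mul_inv_cancel₀ hI, one_mul]

omit hN in
theorem generated_iff (hN : Module.finrank ℂ H = Fintype.card ι) (hU : M.IsUnitary)
    (hG : Algebra.adjoin ℂ {X.c1} = ⊤) (v : ι → H) :
    (∀ i j, M.S i j = X.euler (v i) (v j)) ↔
      ∃ γ : H, (∀ j, M.C j = γ * X.scale (2 * Real.pi * I) (v j)) ∧
        γ * X.dual γ = ((-(2 * Real.pi) : ℂ) ^ D)⁻¹ • X.scale (2 * Real.pi * I) X.Ahat := by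
  rw [unitary_iff M hN hU v]
  constructor
  · rintro ⟨T, h1, h2, h3⟩
    have hT : ∀ a, T a = T 1 * a := by
      intro a
      have ha : a ∈ Algebra.adjoin ℂ {X.c1} := by rw [hG]; trivial
      have key : ∀ c, T (a * c) = a * T c := by
        induction ha using Algebra.adjoin_induction with
        | mem x hx =>
          rw [Set.mem_singleton_iff] at hx
          intro c
          rw [hx, h2]
        | algebraMap r =>
          intro c
          rw [← Algebra.smul_def, ← Algebra.smul_def, map_smul]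
        | add x y _ _ hx hy =>
          intro c
          rw [add_mul, map_add, hx, hy, add_mul]
        | mul x y _ _ hx hy =>
          intro c
          rw [mul_assoc, hx, hy, mul_assoc]
      have := key 1
      rw [mul_one] at this
      rw [this, mul_comm]
    refine ⟨T 1, fun j => by rw [h1, hT], ?_⟩
    have h4 : X.expC1 (Real.pi * I) * (T 1 * X.dual (T 1)) =
        X.expC1 (Real.pi * I) * (((-(2 * Real.pi) : ℂ) ^ D)⁻¹ •
          X.scale (2 * Real.pi * I) X.Ahat) := by
      refine X.eq_of_integral _ _ fun c => ?_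
      have h5 := h3 1 c
      have h6 : X.dual (1 : H) = 1 := X.scale_unit _
      rw [h6, mul_one, hT c] at h5
      rw [mul_smul_comm, smul_mul_assoc, map_smul, smul_eq_mul, ← h5]
      congr 1
      ring
    have h7 := congrArg (fun x => X.expC1 (-(Real.pi * I)) * x) h4
    simp only [← mul_assoc, X.expC1_neg_mul, one_mul] at h7
    exact h7
  · rintro ⟨γ, h1, h2⟩
    refine ⟨LinearMap.mulLeft ℂ γ, fun j => by rw [h1]; rfl, fun a => ?_, fun a b => ?_⟩
    · simp only [LinearMap.mulLeft_apply]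
      ring
    · simp only [LinearMap.mulLeft_apply]
      rw [X.dual_mul]
      have h3 : X.expC1 (Real.pi * I) * (X.dual γ * X.dual a) * (γ * b) =
          X.expC1 (Real.pi * I) * (γ * X.dual γ) * X.dual a * b := by ring
      rw [h3, h2, mul_smul_comm, smul_mul_assoc, smul_mul_assoc, map_smul, smul_eq_mul]

/-- The version for the other half of the line. -/
theorem stokes_imp_connection' (v : ι → H) (ha : ∀ i j, M.S j i = X.euler (v i) (v j)) :
    LinearIndependent ℂ v ∧
    ∃ T : H ≃ₗ[ℂ] H, (∀ j, M.C j = T (X.scale (-(2 * Real.pi * I)) (v j))) ∧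
      (∀ a, T (X.c1 * a) = X.c1 * T a) := by
  have ha' : ∀ i j, M.S i j = X.euler (X.dual (v i)) (X.dual (v j)) := by
    intro i j
    rw [ha j i, X.euler_dual]
  constructor
  · have h := linInd_of_gram M hN (fun j => X.dual (v j)) ha'
    exact LinearIndependent.of_comp (X.scale (-1)) h
  · obtain ⟨T, h1, h2, -⟩ := stokes_imp_connection M hN (fun j => X.dual (v j)) ha'
    refine ⟨T, fun j => ?_, h2⟩
    rw [h1 j, CohRing.dual, X.scale_scale]
    congr 3
    ring

end

end Pool.Agent.Helper59.Dub
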